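import Pool.Agent.H445.EllG
import Pool.Agent.H445.FE.C

/-!
# Points and exponents over fields of small transcendence degree: reduction to a closed field
-/

set_option autoImplicit false

open Set Module MvPolynomial
open Pool.Agent.TH813.Rel (DF MK subset_cl rk_le_of_subset_cl cl_of_base exists_derF)
open Pool.Agent.Y685
open Pool.Agent.Y776 (Tf lg lgL Tf_lin lg_lin ET ET_finite TfL TfL_apply Good good_der good_union
  countable_bad exists_chain grC Grad)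
open Pool.Agent.W245.EB Pool.Agent.TH813.Ell H667R3 Pool.Agent.Y119.CB
open scoped PeriodPair

noncomputable section

namespace Pool.Agent.H445

variable {L : PeriodPair} {κ : ℂ} {K : Subfield ℂ} {n s : ℕ}

/-- the invariants generate the field of definition of the curve -/
abbrev C0 (L : PeriodPair) : IntermediateField ℚ ℂ := clo (⊥ : IntermediateField ℚ ℂ) {L.g₂, L.g₃}

/-- the numbers which generate the field of definition of the points -/
def TYE (L : PeriodPair) (z : Fin n → ℂ) (t : Fin s → ℂ) : Set ℂ := EX t ∪ range fun i => ℘[L] (z i)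

theorem TYE_finite (z : Fin n → ℂ) (t : Fin s → ℂ) : (TYE L z t).Finite :=
  (finite_range _).union (finite_range _)

theorem g2_C0 : L.g₂ ∈ C0 L := fun _ _ h => h _ (by simp)

theorem g3_C0 : L.g₃ ∈ C0 L := fun _ _ h => h _ (by simp)

theorem wp_spanK {δ : Derivation ℚ ℂ ℂ} (h2 : δ L.g₂ = 0) (h3 : δ L.g₃ = 0) {p : Fin n → ℂ}
    (h : ∀ i, δ (℘[L] (p i)) = 0) {v : ℂ} (hv : v ∈ Submodule.span (kL L) (range p))
    (hvL : v ∉ L.lattice) : δ (℘[L] v) = 0 := by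
  obtain ⟨κ, hE⟩ := exists_eig L
  let S : Submodule (kL L) ℂ :=
    { carrier := {v | om L δ v = 0}
      add_mem' := by
        intro u v hu hv
        change om L δ (u + v) = 0
        rw [om_add L δ h2 h3, (hu : om L δ u = 0), (hv : om L δ v = 0), add_zero]
      zero_mem' := om_zero δ
      smul_mem' := by
        rintro ⟨c, hc⟩ z hz
        change om L δ (c * z) = 0
        rw [hE.om_mul δ h2 h3 c hc, (hz : om L δ z = 0), mul_zero] }
  have h1 : Submodule.span (kL L) (range p) ≤ S := by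
    rw [Submodule.span_le]
    rintro _ ⟨i, rfl⟩
    exact om_of_kill (h i)
  exact (wp_killed h2 h3 (h1 hv) hvL).1

theorem exp_spanQ {D : Derivation ℚ ℂ ℂ} {y : Fin s → ℂ} (hS : ∀ j, D (Complex.exp (y j)) = 0) {v : ℂ}
    (hv : v ∈ Submodule.span ℚ (range y)) : D (Complex.exp v) = 0 := by
  rw [Submodule.mem_span_range_iff_exists_fun] at hv
  obtain ⟨q, rfl⟩ := hv
  have h1 : lg D (∑ j, q j • y j) = 0 := by
    rw [lg_lin]
    refine Finset.sum_eq_zero fun j _ => ?_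
    have h2 : lg D (y j) = 0 := by
      unfold lg
      rw [hS j, zero_div]
    rw [h2, mul_zero]
  unfold lg at h1
  exact (div_eq_zero_iff.1 h1).resolve_right (Complex.exp_ne_zero _)

/-- **the directions are seen by the field of definition** -/
theorem Tan_le_type (hK : Fld K) (hL : L ∈ LK K) (z : Fin n → ℂ) (t : Fin s → ℂ) :
    ((finrank ℂ (Tan PF' K (Pf' L (Fin.append z t))) : ℕ) : ℕ∞) ≤ (MK (IFd K)).eRk (TYE L z t) := by
  set S := TYE L z t with hSd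
  have hS : S.Finite := TYE_finite z t
  have : Fintype S := hS.fintype
  let evz : Derivation ℚ ℂ ℂ →ₗ[ℂ] (Fin (n + s) → ℂ) :=
    { toFun := fun D j => D (Fin.append z t j)
      map_add' := fun _ _ => rfl
      map_smul' := fun _ _ => rfl }
  let evs : Derivation ℚ ℂ ℂ →ₗ[ℂ] (S → ℂ) :=
    { toFun := fun D s => D s
      map_add' := fun _ _ => rfl
      map_smul' := fun _ _ => rfl }
  have h2 : Tan PF' K (Pf' L (Fin.append z t)) ≤ (CF K L z t).map evz := by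
    intro v hv
    obtain ⟨D, hD, h5⟩ := Tan_CF hK hL hv
    exact ⟨D, hD, funext h5⟩
  have h5 : finrank ℂ ((CF K L z t).map evz) ≤ finrank ℂ ((CF K L z t).map evs) := by
    refine finrank_map_le _ evs evz ?_
    intro D hD h0
    have hs : ∀ x ∈ S, D x = 0 := fun x hx => congrFun h0 ⟨x, hx⟩
    funext j
    change D (Fin.append z t j) = 0
    induction j using Fin.addCases with
    | left i =>
      rw [Fin.append_left, ← (hD.2.1 i).1]
      exact om_of_kill (hs _ (Or.inr ⟨i, rfl⟩))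
    | right l =>
      rw [Fin.append_right]
      have h1 := hD.2.2 l
      unfold Tf lg at h1
      rw [hs _ (Or.inl ⟨l, rfl⟩), zero_div, sub_zero] at h1
      exact h1
  have h6 : (CF K L z t).map evs ≤ LinearMap.range (evS (IFd K) S) := by
    rintro _ ⟨D, hD, rfl⟩
    exact ⟨⟨D, hD.1⟩, rfl⟩
  have h7 := Submodule.finrank_mono h6
  have h8 : ((finrank ℂ (LinearMap.range (evS (IFd K) S)) : ℕ) : ℕ∞) = (MK (IFd K)).eRk S :=
    rank_evS hS
  rw [← h8]
  have h9 := Submodule.finrank_mono h2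
  exact_mod_cast (by omega : finrank ℂ (Tan PF' K (Pf' L (Fin.append z t))) ≤
    finrank ℂ (LinearMap.range (evS (IFd K) S)))

/-- a failure with a bound for the field of definition -/
structure FailT (L : PeriodPair) (P : Set ℂ) (A : Submodule (kL L) ℂ) (B : Submodule ℚ ℂ)
    (c n s r m : ℕ) (z : Fin n → ℂ) (t : Fin s → ℂ) : Prop extends FailM L P A B c n s m z t where
  ty : (MK (C0 L)).eRk (TYE L z t) ≤ (r : ℕ∞)

/-- **Reduction of a failure to the closed field** -/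
theorem FailT.reduce {P : Set ℂ} {A : Submodule (kL L) ℂ} {B : Submodule ℚ ℂ} {c r m : ℕ}
    {z : Fin n → ℂ} {t : Fin s → ℂ} (h : FailT L P A B c n s r m z t) (hK : Fld K) (hL : L ∈ LK K)
    (hP : P.Finite) (hPK : P ⊆ K) (hg2 : L.g₂ ∈ clo ⊥ P) (hg3 : L.g₃ ∈ clo ⊥ P) :
    (∃ (n₀ s₀ r₀ : ℕ) (z₀ : Fin n₀ → ℂ) (t₀ : Fin s₀ → ℂ), n₀ ≤ n ∧ s₀ ≤ s ∧
      finrank ℂ (Tan PF' K (Pf' L (Fin.append z t))) + (n₀ + s₀) ≤ n + s ∧
      finrank ℂ (Tan PF' K (Pf' L (Fin.append z t))) + r₀ ≤ r ∧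
      FailT L P A B c n₀ s₀ r₀ (m + finrank ℂ (Tan PF' K (Pf' L (Fin.append z t)))) z₀ t₀) ∧
    (finrank ℂ (Tan PF' K (Pf' L (Fin.append z t))) = 0 → (∀ j, z j ∈ K) ∧ ∀ j, t j ∈ K) := by
  classical
  obtain ⟨κ, hE⟩ := exists_eig L
  have hL2 := hK.g₂ L hL
  have hL3 := hK.g₃ L hL
  set V : Submodule (kL L) ℂ := Submodule.span (kL L) (range z) with hV
  set T : Submodule ℚ ℂ := Submodule.span ℚ (range t) with hT
  have hVf : FiniteDimensional (kL L) V := FiniteDimensional.span_of_finite (kL L) (finite_range z)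
  have hTf : FiniteDimensional ℚ T := FiniteDimensional.span_of_finite ℚ (finite_range t)
  have hVn : finrank (kL L) V = n := by
    rw [hV, finrank_span_eq_card h.indP.li, Fintype.card_fin]
  have hTn : finrank ℚ T = s := by
    rw [hT, finrank_span_eq_card h.indE.li, Fintype.card_fin]
  -- the field as a space of points
  let KP : Submodule (kL L) ℂ :=
    { carrier := (K : Set ℂ)
      add_mem' := fun {a b} ha hb => K.add_mem ha hb
      zero_mem' := K.zero_mem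
      smul_mem' := fun a x hx => K.mul_mem (kL_mem hL a.2) hx }
  have hV₀V : V ⊓ KP ≤ V := inf_le_left
  have hT₀T : T ⊓ KQ K ≤ T := inf_le_left
  set V₀ : Submodule (kL L) ℂ := V ⊓ KP with hV₀
  set T₀ : Submodule ℚ ℂ := T ⊓ KQ K with hT₀
  have hV₀f : FiniteDimensional (kL L) V₀ := Submodule.finiteDimensional_of_le hV₀V
  have hT₀f : FiniteDimensional ℚ T₀ := Submodule.finiteDimensional_of_le hT₀T
  obtain ⟨V₁, hV₁V, hdjV, hcardV, hsupV⟩ := exists_rel_complk hV₀V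
  obtain ⟨T₁, hT₁T, hdjT, hcardT, hsupT⟩ := exists_rel_complk hT₀T
  have hV₁f : FiniteDimensional (kL L) V₁ := Submodule.finiteDimensional_of_le hV₁V
  have hT₁f : FiniteDimensional ℚ T₁ := Submodule.finiteDimensional_of_le hT₁T
  rw [hVn] at hcardV
  rw [hTn] at hcardT
  have hdV : ∀ x ∈ V₁, x ≠ 0 → x ∉ K := fun x hx hx0 hxK => hx0 (hdjV x hx ⟨hV₁V hx, hxK⟩)
  have hdT : ∀ x ∈ T₁, x ≠ 0 → x ∉ K := fun x hx hx0 hxK => hx0 (hdjT x hx ⟨hT₁T hx, hxK⟩)
  -- the compatible derivations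
  set Δ := CF K L z t with hΔ
  have hch := chainM (L := L) (κ := κ) (K := IFd K) hE hL2 hL3 (Δ := Δ) (CF_le z t) _ V₁ T₁ hV₁f
    hT₁f rfl (fun D hD x hx => (CF_span hE hL2 hL3 hD).1 x (hV₁V hx))
    (fun D hD x hx => (CF_span hE hL2 hL3 hD).2 x (hT₁T hx))
    (fun x hx hx0 => Fld.moves_pt hK hL t h.off (hdV x hx hx0))
    (fun x hx hx0 => Fld.moves_ex hK hL t h.off (hdT x hx hx0))
  -- the dimension of the directions
  set d := finrank ℂ (Tan PF' K (Pf' L (Fin.append z t))) with hd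
  have hd1 : d ≤ finrank ℂ (Δ.map (eVT V₁ T₁)) := by
    let ev : Derivation ℚ ℂ ℂ →ₗ[ℂ] (Fin (n + s) → ℂ) :=
      { toFun := fun D j => D (Fin.append z t j)
        map_add' := fun _ _ => rfl
        map_smul' := fun _ _ => rfl }
    have h4 : Tan PF' K (Pf' L (Fin.append z t)) ≤ Δ.map ev := by
      intro v hv
      obtain ⟨D, hD, h5⟩ := Tan_CF hK hL hv
      exact ⟨D, hD, funext h5⟩
    refine (Submodule.finrank_mono h4).trans (finrank_map_le Δ _ _ ?_)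
    intro D hD h0
    obtain ⟨h5, h6⟩ := eVT_eq_zero.1 h0
    have h7 : ∀ x ∈ V, D x = 0 := by
      intro x hx
      obtain ⟨a, ha, b, hb, rfl⟩ := Submodule.mem_sup.1 (hsupV hx)
      rw [map_add, hD.1 _ ha.2, h5 _ hb, add_zero]
    have h8 : ∀ x ∈ T, D x = 0 := by
      intro x hx
      obtain ⟨a, ha, b, hb, rfl⟩ := Submodule.mem_sup.1 (hsupT hx)
      rw [map_add, hD.1 _ ha.2, h6 _ hb, add_zero]
    funext j
    change D (Fin.append z t j) = 0
    induction j using Fin.addCases with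
    | left i => rw [Fin.append_left]; exact h7 _ (Submodule.subset_span ⟨i, rfl⟩)
    | right l => rw [Fin.append_right]; exact h8 _ (Submodule.subset_span ⟨l, rfl⟩)
  have hd2 := finrank_eVT_le V₁ T₁ Δ
  -- the rank
  obtain ⟨z₀, hz₀, hsz₀, hLz₀⟩ := exists_tupleK V₀
  obtain ⟨z₁, hz₁, hsz₁, hLz₁⟩ := exists_tupleK V₁
  obtain ⟨t₀, ht₀, hst₀⟩ := exists_tuple T₀
  obtain ⟨t₁, ht₁, hst₁⟩ := exists_tuple T₁
  have hz₀V : ∀ i, z₀ i ∈ V₀ := fun i => hsz₀ ▸ Submodule.subset_span ⟨i, rfl⟩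
  have hz₁V : ∀ i, z₁ i ∈ V₁ := fun i => hsz₁ ▸ Submodule.subset_span ⟨i, rfl⟩
  have ht₀V : ∀ i, t₀ i ∈ T₀ := fun i => hst₀ ▸ Submodule.subset_span ⟨i, rfl⟩
  have ht₁V : ∀ i, t₁ i ∈ T₁ := fun i => hst₁ ▸ Submodule.subset_span ⟨i, rfl⟩
  have hr1 := eRk_NW (C := IFd K) hL2 hL3 hLz₁ t₁
  rw [hst₁, hsz₁] at hr1
  rw [hr1] at hch
  set C : IntermediateField ℚ ℂ := clo ⊥ P with hC
  have hCK : C ≤ IFd K := clo_le_IFd hK bot_le hPK
  have hr2 := eRk_NW (C := C) hg2 hg3 h.off t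
  rw [← hV, ← hT] at hr2
  have hr3 : (MK C).eRk ((ET t₀ ∪ EP L z₀) ∪ (ET t₁ ∪ EP L z₁)) ≤
      (MK C).eRk (ET t ∪ EP L z) := by
    rw [← hr2]
    apply (MK _).eRk_mono
    exact union_subset (NW_subset (fun i => hV₀V (hz₀V i)) hLz₀ fun i => hT₀T (ht₀V i))
      (NW_subset (fun i => hV₁V (hz₁V i)) hLz₁ fun i => hT₁T (ht₁V i))
  have hf0 : (ET t₀ ∪ EP L z₀).Finite := (ET_finite t₀).union (EP_finite z₀)
  have hf1 : (ET t₁ ∪ EP L z₁).Finite := (ET_finite t₁).union (EP_finite z₁)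
  have hf : (ET t ∪ EP L z).Finite := (ET_finite t).union (EP_finite z)
  rw [rank_add hf0 hf1] at hr3
  have hr4 : clo C (ET t₀ ∪ EP L z₀) ≤ IFd K := by
    apply clo_le_IFd hK hCK
    rintro _ ((⟨i, rfl⟩ | ⟨i, rfl⟩) | ⟨i, rfl⟩ | ⟨i, rfl⟩ | ⟨i, rfl⟩)
    · exact (ht₀V i).2
    · exact hK.exp _ (ht₀V i).2
    · exact (hz₀V i).2
    · exact hK.zt L hL _ (hz₀V i).2
    · exact hK.wp L hL _ (hz₀V i).2
  have hr5 := rank_mono_base hr4 hf1
  have hrk := h.rk
  rw [rank_add hP hf] at hrk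
  -- the ranks as numbers
  have hnat : ∀ (F : IntermediateField ℚ ℂ) {S : Set ℂ}, S.Finite →
      ∃ r : ℕ, (MK F).eRk S = r := by
    intro F S hS
    have : (MK F).eRk S ≠ ⊤ := by
      rw [← lt_top_iff_ne_top]
      exact lt_of_le_of_lt ((MK _).eRk_le_encard _) hS.encard_lt_top
    exact ⟨_, (ENat.natCast_toNat this).symm⟩
  obtain ⟨rP, hrP⟩ := hnat ⊥ hP
  obtain ⟨r4, hr⟩ := hnat C hf0
  obtain ⟨r1, hr1'⟩ := hnat (IFd K) hf1
  obtain ⟨r2, hr2'⟩ := hnat (clo C (ET t₀ ∪ EP L z₀)) hf1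
  obtain ⟨r3, hr3'⟩ := hnat C hf
  rw [hr1'] at hch
  rw [hr1', hr2'] at hr5
  rw [hr, hr2', hr3'] at hr3
  rw [hrP, hr3'] at hrk
  have e1 : 2 * finrank (kL L) V₁ + finrank ℚ T₁ + finrank ℂ (Δ.map (eVT V₁ T₁)) ≤ r1 := by
    exact_mod_cast hch
  have e2 : r1 ≤ r2 := by exact_mod_cast hr5
  have e3 : r4 + r2 ≤ r3 := by exact_mod_cast hr3
  have e4 : rP + r3 + m ≤ s + 2 * n + c := by exact_mod_cast hrk
  -- the field of definition
  have hT0 : (TYE L z₀ t₀).Finite := TYE_finite z₀ t₀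
  have hT1 : (TYE L z t).Finite := TYE_finite z t
  have f1 : (MK (C0 L)).eRk (TYE L z₀ t₀ ∪ TYE L z t) ≤ (r : ℕ∞) := by
    refine le_trans (rk_le_of_subset_cl ?_) h.ty
    rintro u ((⟨i, rfl⟩ | ⟨i, rfl⟩) | hu)
    · rw [← mem_clo_iff]
      intro D hD hS
      exact exp_spanQ (fun j => hS _ (Or.inl ⟨j, rfl⟩)) (ht₀V i).1
    · rw [← mem_clo_iff]
      intro D hD hS
      exact wp_spanK (hD _ g2_C0) (hD _ g3_C0) (fun j => hS _ (Or.inr ⟨j, rfl⟩)) (hz₀V i).1 (hLz₀ i)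
    · exact subset_cl _ hu
  rw [rank_add hT0 hT1] at f1
  have f2 : clo (C0 L) (TYE L z₀ t₀) ≤ IFd K := by
    apply clo_le_IFd hK
    · apply clo_le_IFd hK bot_le
      rintro u (rfl | rfl)
      · exact hL2
      · exact hL3
    rintro _ (⟨i, rfl⟩ | ⟨i, rfl⟩)
    · exact hK.exp _ (ht₀V i).2
    · exact hK.wp L hL _ (hz₀V i).2
  have f3 := rank_mono_base f2 hT1
  obtain ⟨ρ₀, hρ₀⟩ := hnat (C0 L) hT0
  obtain ⟨ρ₁, hρ₁⟩ := hnat (IFd K) hT1
  obtain ⟨ρ₂, hρ₂⟩ := hnat (clo (C0 L) (TYE L z₀ t₀)) hT1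
  have f4 := Tan_le_type hK hL z t
  rw [hρ₀, hρ₂] at f1
  rw [hρ₁, hρ₂] at f3
  rw [hρ₁] at f4
  have g1 : ρ₀ + ρ₂ ≤ r := by exact_mod_cast f1
  have g2 : ρ₁ ≤ ρ₂ := by exact_mod_cast f3
  have g3 : d ≤ ρ₁ := by exact_mod_cast f4
  refine ⟨⟨finrank (kL L) V₀, finrank ℚ T₀, ρ₀, z₀, t₀, by omega, by omega, by omega, by omega, ⟨hLz₀,
    h.indP.sub hz₀ fun i => hV₀V (hz₀V i), h.indE.sub ht₀ fun i => hT₀T (ht₀V i), ?_⟩, hρ₀.le⟩,
    fun h0 => ?_⟩
  · rw [rank_add hP hf0, hrP, ← hC, hr]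
    exact_mod_cast (by omega : rP + r4 + (m + d) ≤ finrank ℚ T₀ + 2 * finrank (kL L) V₀ + c)
  · have hTan : Tan PF' K (Pf' L (Fin.append z t)) = ⊥ := Submodule.finrank_eq_zero.1 h0
    have key : ∀ j, Fin.append z t j ∈ K := by
      intro j
      by_contra hj
      obtain ⟨v, hvT, hv⟩ := good_Tan (hK.good L hL n s z t j h.off hj)
      rw [hTan, Submodule.mem_bot] at hvT
      rw [hvT] at hv
      exact zero_ne_one hv
    refine ⟨fun j => ?_, fun j => ?_⟩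
    · have := key (Fin.castAdd s j)
      rwa [Fin.append_left] at this
    · have := key (Fin.natAdd n j)
      rwa [Fin.append_right] at this

end Pool.Agent.H445
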