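import Pool.Agent.H445.ET.A

/-!
# Points and exponents over fields of small transcendence degree: the dimension formula
-/

set_option autoImplicit false

open Set Module MvPolynomial
open Pool.Agent.TH813.Rel (DF MK subset_cl rk_le_of_subset_cl cl_of_base exists_derF)
open Pool.Agent.Y685
open Pool.Agent.Y776 (ET ET_finite)
open Pool.Agent.W245.EB Pool.Agent.TH813.Ell H667R3
open scoped PeriodPair NNReal ENNReal

noncomputable section

namespace Pool.Agent.H445

variable {L : PeriodPair} {n s : ℕ} {P : Set ℂ} {A : Submodule (kL L) ℂ} {B : Submodule ℚ ℂ} {c r m : ℕ}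

/-- the set of the independent failures -/
def ST (L : PeriodPair) (P : Set ℂ) (A : Submodule (kL L) ℂ) (B : Submodule ℚ ℂ) (c n s r m : ℕ) :
    Set (Fin (n + s) → ℂ) :=
  {w | FailT L P A B c n s r m (fun i => w (Fin.castAdd s i)) (fun i => w (Fin.natAdd n i))}

/-- the set of all failures -/
def VT (L : PeriodPair) (P : Set ℂ) (A : Submodule (kL L) ℂ) (B : Submodule ℚ ℂ) (c n s r m : ℕ) :
    Set (Fin (n + s) → ℂ) :=
  {w | w ∈ VM L P A B c n s m ∧
    (MK (C0 L)).eRk (TYE L (fun i => w (Fin.castAdd s i)) (fun i => w (Fin.natAdd n i))) ≤ (r : ℕ∞)}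

theorem mem_ST {w : Fin (n + s) → ℂ} : w ∈ ST L P A B c n s r m ↔
    FailT L P A B c n s r m (fun i => w (Fin.castAdd s i)) (fun i => w (Fin.natAdd n i)) := Iff.rfl

theorem append_mem_ST {z : Fin n → ℂ} {t : Fin s → ℂ} : Fin.append z t ∈ ST L P A B c n s r m ↔
    FailT L P A B c n s r m z t := by
  rw [mem_ST]
  simp only [Fin.append_left, Fin.append_right]

theorem ST_nonempty : (ST L P A B c n s r m).Nonempty ↔
    ∃ (z : Fin n → ℂ) (t : Fin s → ℂ), FailT L P A B c n s r m z t := by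
  constructor
  · rintro ⟨w, hw⟩
    exact ⟨_, _, hw⟩
  · rintro ⟨z, t, h⟩
    exact ⟨_, append_mem_ST.2 h⟩

theorem ST_subset_VT : ST L P A B c n s r m ⊆ VT L P A B c n s r m := fun _ hw =>
  ⟨SM_subset_VM (mem_SM.2 (mem_ST.1 hw).toFailM), (mem_ST.1 hw).ty⟩

theorem TYE_comp_subset {n' s' : ℕ} (z : Fin n → ℂ) (t : Fin s → ℂ) (σ : Fin n' → Fin n) (τ : Fin s' → Fin s) :
    TYE L (fun i => z (σ i)) (fun i => t (τ i)) ⊆ TYE L z t := by
  rintro _ (⟨i, rfl⟩ | ⟨i, rfl⟩)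
  · exact Or.inl ⟨τ i, rfl⟩
  · exact Or.inr ⟨σ i, rfl⟩

/-- reduction to independent tuples -/
theorem VT_sub {w : Fin (n + s) → ℂ} (hw : w ∈ VT L P A B c n s r m) :
    ∃ (q : AffI L A B n s) (u : Fin (q.n₁ + q.s₁) → ℂ), u ∈ ST L P A B c q.n₁ q.s₁ r m ∧ q.map u = w := by
  obtain ⟨⟨h1, h2⟩, h3⟩ := hw
  set z : Fin n → ℂ := fun i => w (Fin.castAdd s i) with hz
  set t : Fin s → ℂ := fun i => w (Fin.natAdd n i) with ht
  obtain ⟨σ, hσ, hσ'⟩ := exists_sub A z
  obtain ⟨τ, hτ, hτ'⟩ := exists_sub B t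
  choose M a hM using hσ'
  choose N b hN using hτ'
  refine ⟨⟨dimQ A z, dimQ B t, dimQ_le A z, dimQ_le B t, M, a, N, b⟩,
    Fin.append (fun i => z (σ i)) (fun i => t (τ i)), append_mem_ST.2 ⟨⟨fun i => h1 (σ i),
      IndP_iff.2 hσ, IndE_iff.2 hτ, ?_⟩, ?_⟩, ?_⟩
  · refine le_trans (add_le_add ((MK _).eRk_mono (union_subset_union_right _
      (union_subset_union (ET_comp_subset t τ) (EP_comp_subset z σ)))) le_rfl) (h2.trans ?_)
    exact_mod_cast (by omega : dimQ B t + c + 2 * dimQ A z ≤ dimQ B t + 2 * dimQ A z + c)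
  · exact ((MK _).eRk_mono (TYE_comp_subset z t σ τ)).trans h3
  · funext i
    refine Fin.addCases (fun i => ?_) (fun i => ?_) i
    · simp only [AffI.map, Fin.append_left]
      exact (hM i).symm
    · simp only [AffI.map, Fin.append_right]
      rw [show w (Fin.natAdd n i) = t i from rfl, hN i]
      congr 1

/-- a point which may be added for free -/
structure Dummy (L : PeriodPair) (P : Set ℂ) (A : Submodule (kL L) ℂ) (p₀ : ℂ) : Prop where
  off : p₀ ∉ L.lattice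
  c1 : p₀ ∈ clo ⊥ P
  c2 : zt L p₀ ∈ clo ⊥ P
  c3 : ℘[L] p₀ ∈ C0 L

/-- adding the same number -/
def padF {n₁ : ℕ} (n : ℕ) (p₀ : ℂ) (z : Fin n₁ → ℂ) : Fin n → ℂ :=
  fun i => if h : (i : ℕ) < n₁ then z ⟨i, h⟩ else p₀

theorem padF_lt {n₁ : ℕ} {p₀ : ℂ} {z : Fin n₁ → ℂ} {i : Fin n} (h : (i : ℕ) < n₁) :
    padF n p₀ z i = z ⟨i, h⟩ := by
  unfold padF
  rw [dif_pos h]

theorem padF_ge {n₁ : ℕ} {p₀ : ℂ} {z : Fin n₁ → ℂ} {i : Fin n} (h : ¬ (i : ℕ) < n₁) :
    padF n p₀ z i = p₀ := by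
  unfold padF
  rw [dif_neg h]

theorem dimQ_pad {k : Type} [Field k] [Module k ℂ] {A : Submodule k ℂ} {n₁ : ℕ} (hn : n₁ ≤ n) {p₀ : ℂ}
    {z : Fin n₁ → ℂ} (h : LinearIndependent k (fun i => A.mkQ (z i))) : n₁ ≤ dimQ A (padF n p₀ z) := by
  rw [dimQ]
  have h1 : (fun i => A.mkQ (z i)) = (fun i => A.mkQ (padF n p₀ z i)) ∘ Fin.castLE hn := by
    funext i
    rw [Function.comp_apply, padF_lt (i := Fin.castLE hn i) i.2]
    rfl
  have h2 : finrank k (Submodule.span k (range fun i => A.mkQ (z i))) = n₁ := by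
    rw [finrank_span_eq_card h, Fintype.card_fin]
  have h3 : FiniteDimensional k (Submodule.span k (range fun i => A.mkQ (padF n p₀ z i))) :=
    FiniteDimensional.span_of_finite k (finite_range _)
  conv_lhs => rw [← h2]
  apply Submodule.finrank_mono
  apply Submodule.span_mono
  rw [h1]
  exact range_comp_subset_range _ _

/-- adding numbers for free -/
theorem FailT.pad {p₀ : ℂ} (hD : Dummy L P A p₀) (hB : BaseM L P A B) {n₁ s₁ : ℕ} (hn : n₁ ≤ n) (hs : s₁ ≤ s)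
    {z : Fin n₁ → ℂ} {t : Fin s₁ → ℂ} (h : FailT L P A B c n₁ s₁ r m z t) :
    Fin.append (padF n p₀ z) (padF s 0 t) ∈ VT L P A B c n s r m := by
  have hcl : ∀ {S : Set ℂ} {x : ℂ}, x ∈ clo ⊥ P → x ∈ (MK (⊥ : IntermediateField ℚ ℂ)).closure (P ∪ S) := by
    intro S x hx
    rw [← mem_clo_iff]
    exact fun D hD h => hx D hD fun y hy => h y (Or.inl hy)
  have hC0 : C0 L ≤ clo ⊥ P := by
    intro x hx D hD hP
    refine hx D hD ?_
    rintro y (rfl | rfl)
    · exact hB.g2 D hD hP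
    · exact hB.g3 D hD hP
  refine ⟨⟨?_, ?_⟩, ?_⟩
  · intro i
    rw [Fin.append_left]
    by_cases hi : (i : ℕ) < n₁
    · rw [padF_lt hi]
      exact h.off _
    · rw [padF_ge hi]
      exact hD.off
  · simp only [Fin.append_left, Fin.append_right]
    have h1 := dimQ_pad (p₀ := p₀) hn (IndP_iff.1 h.indP)
    have h2 := dimQ_pad (p₀ := 0) hs (IndE_iff.1 h.indE)
    have h3 : (MK (⊥ : IntermediateField ℚ ℂ)).eRk (P ∪ (ET (padF s 0 t) ∪ EP L (padF n p₀ z))) ≤
        (MK (⊥ : IntermediateField ℚ ℂ)).eRk (P ∪ (ET t ∪ EP L z)) := by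
      apply rk_le_of_subset_cl
      rintro x (hx | (⟨i, rfl⟩ | ⟨i, rfl⟩) | (⟨i, rfl⟩ | ⟨i, rfl⟩ | ⟨i, rfl⟩))
      · exact subset_cl _ (Or.inl hx)
      · by_cases hi : (i : ℕ) < s₁
        · rw [padF_lt hi]
          exact subset_cl _ (Or.inr (Or.inl (Or.inl ⟨_, rfl⟩)))
        · rw [padF_ge hi]
          exact alg_mem_cl isAlgebraic_zero _
      · beta_reduce
        by_cases hi : (i : ℕ) < s₁
        · rw [padF_lt hi]
          exact subset_cl _ (Or.inr (Or.inl (Or.inr ⟨_, rfl⟩)))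
        · rw [padF_ge hi, Complex.exp_zero]
          exact alg_mem_cl isAlgebraic_one _
      · by_cases hi : (i : ℕ) < n₁
        · rw [padF_lt hi]
          exact subset_cl _ (Or.inr (Or.inr (Or.inl ⟨_, rfl⟩)))
        · rw [padF_ge hi]
          exact hcl hD.c1
      · beta_reduce
        by_cases hi : (i : ℕ) < n₁
        · rw [padF_lt hi]
          exact subset_cl _ (Or.inr (Or.inr (Or.inr (Or.inl ⟨_, rfl⟩))))
        · rw [padF_ge hi]
          exact hcl hD.c2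
      · beta_reduce
        by_cases hi : (i : ℕ) < n₁
        · rw [padF_lt hi]
          exact subset_cl _ (Or.inr (Or.inr (Or.inr (Or.inr ⟨_, rfl⟩))))
        · rw [padF_ge hi]
          exact hcl (hC0 hD.c3)
    refine (add_le_add h3 le_rfl).trans (h.rk.trans ?_)
    exact_mod_cast (by omega : s₁ + 2 * n₁ + c ≤ dimQ B (padF s 0 t) + c + 2 * dimQ A (padF n p₀ z))
  · simp only [Fin.append_left, Fin.append_right]
    refine le_trans (rk_le_of_subset_cl (T := TYE L z t) ?_) h.ty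
    rintro x (⟨i, rfl⟩ | ⟨i, rfl⟩)
    · beta_reduce
      by_cases hi : (i : ℕ) < s₁
      · rw [padF_lt hi]
        exact subset_cl _ (Or.inl ⟨_, rfl⟩)
      · rw [padF_ge hi, Complex.exp_zero]
        exact alg_mem_clF isAlgebraic_one _
    · beta_reduce
      by_cases hi : (i : ℕ) < n₁
      · rw [padF_lt hi]
        exact subset_cl _ (Or.inr ⟨_, rfl⟩)
      · rw [padF_ge hi, ← mem_clo_iff]
        intro D hD' _
        exact hD' _ hD.c3

theorem FailT.mono {r' m' : ℕ} (hr : r ≤ r') (hm : m ≤ m') {z : Fin n → ℂ} {t : Fin s → ℂ}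
    (h : FailT L P A B c n s r m' z t) : FailT L P A B c n s r' m z t :=
  ⟨h.toFailM.mono hm, h.ty.trans (by exact_mod_cast hr)⟩

theorem VT_nonempty {p₀ : ℂ} (hD : Dummy L P A p₀) (hB : BaseM L P A B) :
    (VT L P A B c n s r m).Nonempty ↔ ∃ n₁ s₁, n₁ ≤ n ∧ s₁ ≤ s ∧ (ST L P A B c n₁ s₁ r m).Nonempty := by
  constructor
  · rintro ⟨w, hw⟩
    obtain ⟨q, u, hu, -⟩ := VT_sub hw
    exact ⟨_, _, q.hn, q.hs, u, hu⟩
  · rintro ⟨n₁, s₁, hn, hs, w, hw⟩
    exact ⟨_, FailT.pad hD hB hn hs hw⟩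

/-- the admissible levels -/
def LevT (L : PeriodPair) (P : Set ℂ) (A : Submodule (kL L) ℂ) (B : Submodule ℚ ℂ) (c n s r m : ℕ) :
    Set ℕ :=
  {d | d ≤ r ∧ ∃ b a : ℕ, b ≤ n ∧ a ≤ s ∧ b + a = d ∧ (VT L P A B c (n - b) (s - a) (r - d) (m + d)).Nonempty}

theorem LevT_bdd : BddAbove (LevT L P A B c n s r m) := ⟨r, fun _ h => h.1⟩

theorem LevT_mono {p₀ : ℂ} (hD : Dummy L P A p₀) (hB : BaseM L P A B) {n₁ s₁ : ℕ} (hn : n₁ ≤ n) (hs : s₁ ≤ s) :
    LevT L P A B c n₁ s₁ r m ⊆ LevT L P A B c n s r m := by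
  rintro d ⟨h0, b, a, h1, h2, h3, h4⟩
  obtain ⟨n', s', h5, h6, h7⟩ := (VT_nonempty hD hB).1 h4
  exact ⟨h0, b, a, by omega, by omega, h3, (VT_nonempty hD hB).2 ⟨n', s', by omega, by omega, h7⟩⟩

/-- the level of a failure -/
theorem FailT.level {p₀ : ℂ} (hD : Dummy L P A p₀) (hB : BaseM L P A B) {K : Subfield ℂ} (hK : Fld K)
    (hL : L ∈ LK K) (hPK : P ⊆ K) {w : Fin (n + s) → ℂ} (hw : w ∈ ST L P A B c n s r m) :
    finrank ℂ (Tan PF' K (Pf' L w)) ∈ LevT L P A B c n s r m ∧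
      (finrank ℂ (Tan PF' K (Pf' L w)) = 0 → ∀ j, w j ∈ K) := by
  obtain ⟨⟨n₀, s₀, r₀, z₀, t₀, h1, h2, h3, h4, h6⟩, h5⟩ := FailT.reduce (mem_ST.1 hw) hK hL hB.fin hPK hB.g2
    hB.g3
  rw [append_eta] at h3 h4 h5 h6
  constructor
  · refine ⟨by omega, min (finrank ℂ (Tan PF' K (Pf' L w))) (n - n₀),
      finrank ℂ (Tan PF' K (Pf' L w)) - min (finrank ℂ (Tan PF' K (Pf' L w))) (n - n₀), by omega,
      by omega, by omega, (VT_nonempty hD hB).2 ⟨n₀, s₀, by omega, by omega, ST_nonempty.2 ⟨z₀, t₀,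
        h6.mono (by omega) le_rfl⟩⟩⟩
  · intro h0
    obtain ⟨h6, h7⟩ := h5 h0
    intro j
    refine Fin.addCases (fun i => ?_) (fun j => ?_) j
    · exact h6 i
    · exact h7 j

/-- generic points and exponents -/
theorem FailT.generic {K : Subfield ℂ} {b a : ℕ} {z : Fin n → ℂ} {t : Fin s → ℂ}
    (h : FailT L P A B c n s r (m + (b + a)) z t) (hL : L ∈ LK K) (hAK : ∀ x ∈ A, x ∈ K)
    (hBK : ∀ x ∈ B, x ∈ K) (hz : ∀ i, z i ∈ K) (ht : ∀ i, t i ∈ K) {w : Fin (b + a) → ℂ}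
    (hw : w ∈ Gen K (b + a)) :
    FailT L P A B c (n + b) (s + a) (r + (b + a)) m (Fin.append z fun i => w (Fin.castAdd a i))
      (Fin.append t fun i => w (Fin.natAdd b i)) := by
  refine ⟨FailM.generic h.toFailM hL hAK hBK hz ht hw, ?_⟩
  have e : TYE L (Fin.append z fun i => w (Fin.castAdd a i)) (Fin.append t fun i => w (Fin.natAdd b i)) =
      TYE L z t ∪ TYE L (fun i => w (Fin.castAdd a i)) (fun i => w (Fin.natAdd b i)) := by
    ext x
    constructor
    · rintro (⟨i, rfl⟩ | ⟨i, rfl⟩)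
      · refine Fin.addCases (fun i => ?_) (fun j => ?_) i
        · exact Or.inl (Or.inl ⟨i, by beta_reduce; rw [Fin.append_left]⟩)
        · exact Or.inr (Or.inl ⟨j, by beta_reduce; rw [Fin.append_right]⟩)
      · refine Fin.addCases (fun i => ?_) (fun j => ?_) i
        · exact Or.inl (Or.inr ⟨i, by beta_reduce; rw [Fin.append_left]⟩)
        · exact Or.inr (Or.inr ⟨j, by beta_reduce; rw [Fin.append_right]⟩)
    · rintro ((⟨i, rfl⟩ | ⟨i, rfl⟩) | (⟨i, rfl⟩ | ⟨i, rfl⟩))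
      · exact Or.inl ⟨Fin.castAdd a i, by beta_reduce; rw [Fin.append_left]⟩
      · exact Or.inr ⟨Fin.castAdd b i, by beta_reduce; rw [Fin.append_left]⟩
      · exact Or.inl ⟨Fin.natAdd s i, by beta_reduce; rw [Fin.append_right]⟩
      · exact Or.inr ⟨Fin.natAdd n i, by beta_reduce; rw [Fin.append_right]⟩
  rw [e]
  refine ((MK (C0 L)).eRk_union_le_eRk_add_encard _ _).trans ?_
  rw [Nat.cast_add]
  refine add_le_add h.ty ?_
  have h1 : ∀ {d : ℕ} (f : Fin d → ℂ), (range f).encard ≤ d := by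
    intro d f
    rw [← image_univ]
    refine (encard_image_le _ _).trans ?_
    rw [encard_univ]
    simp
  refine (encard_union_le _ _).trans ?_
  rw [Nat.cast_add, add_comm]
  exact add_le_add (h1 _) (h1 _)

theorem Gen_nonempty {K : Subfield ℂ} (hK : (K : Set ℂ).Countable) (d : ℕ) : (Gen K d).Nonempty := by
  by_contra h
  rw [not_nonempty_iff_eq_empty] at h
  have h1 := dimH_Gen hK d
  rw [h, dimH_empty] at h1
  have h2 : 2 * d ≤ 0 := by exact_mod_cast h1
  obtain rfl : d = 0 := by omega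
  have h3 : (Fin.elim0 : Fin 0 → ℂ) ∈ Gen K 0 := fun c _ _ => Subsingleton.elim _ _
  rw [h] at h3
  exact h3

theorem LevT_down {p₀ : ℂ} (hD : Dummy L P A p₀) (hB : BaseM L P A B) {d e : ℕ} (hed : e ≤ d)
    (hd : d ∈ LevT L P A B c n s r m) : e ∈ LevT L P A B c n s r m := by
  obtain ⟨h0, b, a, h1, h2, rfl, h3⟩ := hd
  obtain ⟨n', s', hn, hs, h4⟩ := (VT_nonempty hD hB).1 h3
  obtain ⟨z, t, h5⟩ := ST_nonempty.1 h4
  obtain ⟨K, hK, hL, -, hS, hAK, hBK⟩ := hB.exists_field (S := range z ∪ range t)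
    ((countable_range z).union (countable_range t))
  set b' := min b e with hb'
  set a' := e - b' with ha'
  obtain ⟨w, hw⟩ := Gen_nonempty hK.cnt ((b - b') + (a - a'))
  have h6 : FailT L P A B c n' s' (r - (b + a)) ((m + e) + ((b - b') + (a - a'))) z t := by
    refine h5.mono le_rfl ?_
    omega
  have h7 := FailT.generic h6 hL hAK hBK (fun i => hS (Or.inl ⟨i, rfl⟩)) (fun i => hS (Or.inr ⟨i, rfl⟩)) hw
  refine ⟨by omega, b', a', by omega, by omega, by omega, (VT_nonempty hD hB).2 ⟨n' + (b - b'), s' + (a - a'),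
    by omega, by omega, ST_nonempty.2 ⟨_, _, h7.mono (by omega) le_rfl⟩⟩⟩

theorem lowerT {p₀ : ℂ} (hD : Dummy L P A p₀) (hB : BaseM L P A B) {d : ℕ}
    (hd : d ∈ LevT L P A B c n s r m) : ((2 * d : ℕ) : ℝ≥0∞) ≤ dimH (VT L P A B c n s r m) := by
  obtain ⟨h0, b, a, h1, h2, rfl, h3⟩ := hd
  obtain ⟨n', s', hn, hs, h4⟩ := (VT_nonempty hD hB).1 h3
  obtain ⟨z, t, h5⟩ := ST_nonempty.1 h4
  obtain ⟨K, hK, hL, -, hS, hAK, hBK⟩ := hB.exists_field (S := range z ∪ range t)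
    ((countable_range z).union (countable_range t))
  have h6 : ∀ w ∈ Gen K (b + a), Fin.append (padF n p₀ (Fin.append z fun i => w (Fin.castAdd a i)))
      (padF s 0 (Fin.append t fun i => w (Fin.natAdd b i))) ∈ VT L P A B c n s r m := by
    intro w hw
    refine FailT.pad hD hB (n₁ := n' + b) (s₁ := s' + a) (by omega) (by omega) ?_
    exact (FailT.generic h5 hL hAK hBK (fun i => hS (Or.inl ⟨i, rfl⟩))
      (fun i => hS (Or.inr ⟨i, rfl⟩)) hw).mono (by omega) le_rfl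
  let σ : Fin (b + a) → Fin (n + s) := Fin.addCases
    (fun i => Fin.castAdd s ⟨n' + i, by omega⟩) (fun i => Fin.natAdd n ⟨s' + i, by omega⟩)
  let π : (Fin (n + s) → ℂ) →L[ℂ] (Fin (b + a) → ℂ) :=
    ContinuousLinearMap.pi fun j => ContinuousLinearMap.proj (σ j)
  refine (dimH_Gen hK.cnt (b + a)).trans (le_trans (dimH_mono ?_)
    (π.lipschitz.dimH_image_le (VT L P A B c n s r m)))
  intro w hw
  refine ⟨_, h6 w hw, ?_⟩
  funext j
  change Fin.append (padF n p₀ (Fin.append z fun i => w (Fin.castAdd a i)))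
      (padF s 0 (Fin.append t fun i => w (Fin.natAdd b i))) (σ j) = w j
  refine Fin.addCases (fun i => ?_) (fun i => ?_) j
  · simp only [σ, Fin.addCases_left, Fin.append_left]
    rw [padF_lt (by simp)]
    exact Fin.append_right z _ i
  · simp only [σ, Fin.addCases_right, Fin.append_right]
    rw [padF_lt (by simp)]
    exact Fin.append_right t _ i

/-- the upper bound for independent tuples -/
theorem upperT {p₀ : ℂ} (hD : Dummy L P A p₀) (hB : BaseM L P A B) :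
    dimH (ST L P A B c n s r m) ≤ (2 * sSup (LevT L P A B c n s r m) : ℕ) := by
  obtain ⟨K, hK, hL, hPK, -, -, -⟩ := hB.exists_field (S := ∅) Set.countable_empty
  refine (dimH_mono ?_).trans (dimH_Tan (P := PF' (n := n) (s := s)) (K := K) (Φ := Pf' L) hK.cnt
    (isOpen_Uf L) (fun x hx s₀ => Pf'_der L hx s₀) (sSup (LevT L P A B c n s r m))).1
  intro w hw
  exact ⟨(mem_ST.1 hw).off, le_csSup LevT_bdd (FailT.level hD hB hK hL hPK hw).1⟩

/-- **The dimension formula** -/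
theorem dimT {p₀ : ℂ} (hD : Dummy L P A p₀) (hB : BaseM L P A B) :
    dimH (VT L P A B c n s r m) = (2 * sSup (LevT L P A B c n s r m) : ℕ) := by
  apply le_antisymm
  · have := countable_AffI (n := n) (s := s) hB
    have h1 : VT L P A B c n s r m ⊆ ⋃ q : AffI L A B n s, q.map '' ST L P A B c q.n₁ q.s₁ r m := by
      intro w hw
      obtain ⟨q, u, hu, rfl⟩ := VT_sub hw
      exact mem_iUnion.2 ⟨q, u, hu, rfl⟩
    refine (dimH_mono h1).trans ?_
    rw [dimH_iUnion]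
    refine iSup_le fun q => ?_
    obtain ⟨K, hK⟩ := q.lipschitz
    refine (hK.dimH_image_le _).trans ((upperT hD hB).trans ?_)
    have h2 : sSup (LevT L P A B c q.n₁ q.s₁ r m) ≤ sSup (LevT L P A B c n s r m) := by
      rcases Set.eq_empty_or_nonempty (LevT L P A B c q.n₁ q.s₁ r m) with h | h
      · rw [h, csSup_empty]
        exact Nat.zero_le _
      · exact csSup_le_csSup LevT_bdd h (LevT_mono hD hB q.hn q.hs)
    exact_mod_cast Nat.mul_le_mul_left 2 h2
  · rcases Set.eq_empty_or_nonempty (LevT L P A B c n s r m) with h | h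
    · rw [h, csSup_empty]
      simp
    · exact lowerT hD hB (Nat.sSup_mem h LevT_bdd)

/-- **Countability** -/
theorem countableT {p₀ : ℂ} (hD : Dummy L P A p₀) (hB : BaseM L P A B) :
    (VT L P A B c n s r m).Countable ↔ 1 ∉ LevT L P A B c n s r m := by
  constructor
  · intro h h1
    have h2 := lowerT hD hB h1
    rw [h.dimH_zero] at h2
    norm_num at h2
  · intro h
    have := countable_AffI (n := n) (s := s) hB
    have h1 : VT L P A B c n s r m ⊆ ⋃ q : AffI L A B n s, q.map '' ST L P A B c q.n₁ q.s₁ r m := by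
      intro w hw
      obtain ⟨q, u, hu, rfl⟩ := VT_sub hw
      exact mem_iUnion.2 ⟨q, u, hu, rfl⟩
    refine (Set.countable_iUnion fun q => ?_).mono h1
    refine Set.Countable.image ?_ _
    obtain ⟨K, hK, hL, hPK, -, -, -⟩ := hB.exists_field (S := ∅) Set.countable_empty
    refine Set.Countable.mono ?_ (Set.countable_univ_pi fun _ : Fin (q.n₁ + q.s₁) => hK.cnt)
    intro w hw j _
    obtain ⟨h1, h2⟩ := FailT.level hD hB hK hL hPK hw
    refine h2 ?_ j
    by_contra h0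
    exact h (LevT_mono hD hB q.hn q.hs (LevT_down hD hB (Nat.one_le_iff_ne_zero.2 h0) h1))

end Pool.Agent.H445
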