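import Pool.Agent.H445.ET.B

/-!
# Points and exponents over fields of small transcendence degree: numbers of the first kind
-/

set_option autoImplicit false

open Set Module MvPolynomial
open Pool.Agent.TH813.Rel (DF MK subset_cl rk_le_of_subset_cl cl_of_base exists_derF)
open Pool.Agent.Y685
open Pool.Agent.Y776 (Tf lg lgL Tf_lin lg_lin ET ET_finite TfL TfL_apply Good good_der good_union
  countable_bad exists_chain grC Grad)
open Pool.Agent.W245.EB Pool.Agent.TH813.Ell H667R3 Pool.Agent.Y119.CB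
open scoped PeriodPair NNReal ENNReal

noncomputable section

namespace Pool.Agent.H445

variable {L : PeriodPair} {κ : ℂ} {K : Subfield ℂ} {n s : ℕ}

/-- the points and their coordinates -/
def E1 (L : PeriodPair) (z : Fin n → ℂ) : Set ℂ := range z ∪ range fun i => ℘[L] (z i)

theorem E1_finite (z : Fin n → ℂ) : (E1 L z).Finite := (finite_range _).union (finite_range _)

/-- a failure of the inequality for points of the first kind -/
structure FailU (L : PeriodPair) (A : Submodule (kL L) ℂ) (B : Submodule ℚ ℂ)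
    (c n s r m : ℕ) (z : Fin n → ℂ) (t : Fin s → ℂ) : Prop where
  off : ∀ i, z i ∉ L.lattice
  indP : IndP L A z
  indE : IndE B t
  rk : (MK (C0 L)).eRk (ET t ∪ E1 L z) + m ≤ ((s + n + c : ℕ) : ℕ∞)
  ty : (MK (C0 L)).eRk (TYE L z t) ≤ (r : ℕ∞)

theorem span_der {D : Derivation ℚ ℂ ℂ} {z : Fin n → ℂ} (hS : ∀ j, D (z j) = 0) {u : ℂ}
    (hu : u ∈ Submodule.span (kL L) (range z)) : D u = 0 := by
  have h1 : Submodule.span (kL L) (range z) ≤ kerK L D := by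
    rw [Submodule.span_le]
    rintro _ ⟨i, rfl⟩
    exact hS i
  exact h1 hu

/-- **Reduction of a failure to the closed field** -/
theorem FailU.reduce {A : Submodule (kL L) ℂ} {B : Submodule ℚ ℂ} {c r m : ℕ}
    {z : Fin n → ℂ} {t : Fin s → ℂ} (h : FailU L A B c n s r m z t) (hK : Fld K) (hL : L ∈ LK K) :
    (∃ (n₀ s₀ r₀ : ℕ) (z₀ : Fin n₀ → ℂ) (t₀ : Fin s₀ → ℂ), n₀ ≤ n ∧ s₀ ≤ s ∧
      finrank ℂ (Tan PF' K (Pf' L (Fin.append z t))) + (n₀ + s₀) ≤ n + s ∧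
      finrank ℂ (Tan PF' K (Pf' L (Fin.append z t))) + r₀ ≤ r ∧
      FailU L A B c n₀ s₀ r₀ (m + finrank ℂ (Tan PF' K (Pf' L (Fin.append z t)))) z₀ t₀) ∧
    (finrank ℂ (Tan PF' K (Pf' L (Fin.append z t))) = 0 → (∀ j, z j ∈ K) ∧ ∀ j, t j ∈ K) := by
  classical
  obtain ⟨κ, hE⟩ := exists_eig L
  have hL2 := hK.g₂ L hL
  have hL3 := hK.g₃ L hL
  set V : Submodule (kL L) ℂ := Submodule.span (kL L) (range z) with hV
  set T : Submodule ℚ ℂ := Submodule.span ℚ (range t) with hT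
  have hVf : FiniteDimensional (kL L) V := FiniteDimensional.span_of_finite (kL L) (finite_range z)
  have hTf : FiniteDimensional ℚ T := FiniteDimensional.span_of_finite ℚ (finite_range t)
  have hVn : finrank (kL L) V = n := by
    rw [hV, finrank_span_eq_card h.indP.li, Fintype.card_fin]
  have hTn : finrank ℚ T = s := by
    rw [hT, finrank_span_eq_card h.indE.li, Fintype.card_fin]
  -- the field as a space of points
  let KP : Submodule (kL L) ℂ :=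
    { carrier := (K : Set ℂ)
      add_mem' := fun {a b} ha hb => K.add_mem ha hb
      zero_mem' := K.zero_mem
      smul_mem' := fun a x hx => K.mul_mem (kL_mem hL a.2) hx }
  have hV₀V : V ⊓ KP ≤ V := inf_le_left
  have hT₀T : T ⊓ KQ K ≤ T := inf_le_left
  set V₀ : Submodule (kL L) ℂ := V ⊓ KP with hV₀
  set T₀ : Submodule ℚ ℂ := T ⊓ KQ K with hT₀
  have hV₀f : FiniteDimensional (kL L) V₀ := Submodule.finiteDimensional_of_le hV₀V
  have hT₀f : FiniteDimensional ℚ T₀ := Submodule.finiteDimensional_of_le hT₀T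
  obtain ⟨V₁, hV₁V, hdjV, hcardV, hsupV⟩ := exists_rel_complk hV₀V
  obtain ⟨T₁, hT₁T, hdjT, hcardT, hsupT⟩ := exists_rel_complk hT₀T
  have hV₁f : FiniteDimensional (kL L) V₁ := Submodule.finiteDimensional_of_le hV₁V
  have hT₁f : FiniteDimensional ℚ T₁ := Submodule.finiteDimensional_of_le hT₁T
  rw [hVn] at hcardV
  rw [hTn] at hcardT
  have hdV : ∀ x ∈ V₁, x ≠ 0 → x ∉ K := fun x hx hx0 hxK => hx0 (hdjV x hx ⟨hV₁V hx, hxK⟩)
  have hdT : ∀ x ∈ T₁, x ≠ 0 → x ∉ K := fun x hx hx0 hxK => hx0 (hdjT x hx ⟨hT₁T hx, hxK⟩)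
  -- the compatible derivations
  set Δ := CF K L z t with hΔ
  have hch := chainM (L := L) (κ := κ) (K := IFd K) hE hL2 hL3 (Δ := Δ) (CF_le z t) _ V₁ T₁ hV₁f
    hT₁f rfl (fun D hD x hx => (CF_span hE hL2 hL3 hD).1 x (hV₁V hx))
    (fun D hD x hx => (CF_span hE hL2 hL3 hD).2 x (hT₁T hx))
    (fun x hx hx0 => Fld.moves_pt hK hL t h.off (hdV x hx hx0))
    (fun x hx hx0 => Fld.moves_ex hK hL t h.off (hdT x hx hx0))
  -- the dimension of the directions
  set d := finrank ℂ (Tan PF' K (Pf' L (Fin.append z t))) with hd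
  have hd1 : d ≤ finrank ℂ (Δ.map (eVT V₁ T₁)) := by
    let ev : Derivation ℚ ℂ ℂ →ₗ[ℂ] (Fin (n + s) → ℂ) :=
      { toFun := fun D j => D (Fin.append z t j)
        map_add' := fun _ _ => rfl
        map_smul' := fun _ _ => rfl }
    have h4 : Tan PF' K (Pf' L (Fin.append z t)) ≤ Δ.map ev := by
      intro v hv
      obtain ⟨D, hD, h5⟩ := Tan_CF hK hL hv
      exact ⟨D, hD, funext h5⟩
    refine (Submodule.finrank_mono h4).trans (finrank_map_le Δ _ _ ?_)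
    intro D hD h0
    obtain ⟨h5, h6⟩ := eVT_eq_zero.1 h0
    have h7 : ∀ x ∈ V, D x = 0 := by
      intro x hx
      obtain ⟨a, ha, b, hb, rfl⟩ := Submodule.mem_sup.1 (hsupV hx)
      rw [map_add, hD.1 _ ha.2, h5 _ hb, add_zero]
    have h8 : ∀ x ∈ T, D x = 0 := by
      intro x hx
      obtain ⟨a, ha, b, hb, rfl⟩ := Submodule.mem_sup.1 (hsupT hx)
      rw [map_add, hD.1 _ ha.2, h6 _ hb, add_zero]
    funext j
    change D (Fin.append z t j) = 0
    induction j using Fin.addCases with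
    | left i => rw [Fin.append_left]; exact h7 _ (Submodule.subset_span ⟨i, rfl⟩)
    | right l => rw [Fin.append_right]; exact h8 _ (Submodule.subset_span ⟨l, rfl⟩)
  have hd2 := finrank_eVT_le V₁ T₁ Δ
  -- the rank
  obtain ⟨z₀, hz₀, hsz₀, hLz₀⟩ := exists_tupleK V₀
  obtain ⟨z₁, hz₁, hsz₁, hLz₁⟩ := exists_tupleK V₁
  obtain ⟨t₀, ht₀, hst₀⟩ := exists_tuple T₀
  obtain ⟨t₁, ht₁, hst₁⟩ := exists_tuple T₁
  have hz₀V : ∀ i, z₀ i ∈ V₀ := fun i => hsz₀ ▸ Submodule.subset_span ⟨i, rfl⟩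
  have hz₁V : ∀ i, z₁ i ∈ V₁ := fun i => hsz₁ ▸ Submodule.subset_span ⟨i, rfl⟩
  have ht₀V : ∀ i, t₀ i ∈ T₀ := fun i => hst₀ ▸ Submodule.subset_span ⟨i, rfl⟩
  have ht₁V : ∀ i, t₁ i ∈ T₁ := fun i => hst₁ ▸ Submodule.subset_span ⟨i, rfl⟩
  have hr1 := eRk_NW (C := IFd K) hL2 hL3 hLz₁ t₁
  rw [hst₁, hsz₁] at hr1
  rw [hr1] at hch
  set C : IntermediateField ℚ ℂ := C0 L with hC
  have hCK : C ≤ IFd K := by
    apply clo_le_IFd hK bot_le
    rintro u (rfl | rfl)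
    · exact hL2
    · exact hL3
  have hr1' : (MK (IFd K)).eRk (ET t₁ ∪ EP L z₁) ≤ (MK (IFd K)).eRk (ET t₁ ∪ E1 L z₁) +
      (finrank (kL L) V₁ : ℕ) := by
    have e1 : ET t₁ ∪ EP L z₁ = (ET t₁ ∪ E1 L z₁) ∪ range fun i => zt L (z₁ i) := by
      ext x
      simp only [EP, E1, mem_union]
      tauto
    rw [e1]
    refine ((MK (IFd K)).eRk_union_le_eRk_add_encard _ _).trans ?_
    refine add_le_add le_rfl ?_
    rw [← image_univ]
    refine (encard_image_le _ _).trans ?_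
    rw [encard_univ]
    simp
  have hr3 : (MK C).eRk ((ET t₀ ∪ E1 L z₀) ∪ (ET t₁ ∪ E1 L z₁)) ≤
      (MK C).eRk (ET t ∪ E1 L z) := by
    apply rk_le_of_subset_cl
    have key : ∀ {a b : ℕ} (z' : Fin a → ℂ) (t' : Fin b → ℂ), (∀ i, z' i ∈ V) → (∀ i, z' i ∉ L.lattice) →
        (∀ i, t' i ∈ T) → ET t' ∪ E1 L z' ⊆ (MK C).closure (ET t ∪ E1 L z) := by
      intro a b z' t' h1 h2 h3 x hx
      rw [← mem_clo_iff]
      intro D hD hS
      rcases hx with (⟨i, rfl⟩ | ⟨i, rfl⟩) | (⟨i, rfl⟩ | ⟨i, rfl⟩)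
      · have h5 : ∀ u ∈ Submodule.span ℚ (range t), D u = 0 := by
          intro u hu
          induction hu using Submodule.span_induction with
          | mem x hx =>
            obtain ⟨j, rfl⟩ := hx
            exact hS _ (Or.inl (Or.inl ⟨j, rfl⟩))
          | zero => exact map_zero D
          | add x y _ _ hx hy => rw [map_add, hx, hy, add_zero]
          | smul c x _ hx => rw [D.map_smul, hx, smul_zero]
        exact h5 _ (h3 i)
      · exact exp_spanQ (fun j => hS _ (Or.inl (Or.inr ⟨j, rfl⟩))) (h3 i)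
      · exact span_der (fun j => hS _ (Or.inr (Or.inl ⟨j, rfl⟩))) (h1 i)
      · exact wp_spanK (hD _ g2_C0) (hD _ g3_C0) (fun j => hS _ (Or.inr (Or.inr ⟨j, rfl⟩))) (h1 i) (h2 i)
    exact union_subset (key z₀ t₀ (fun i => hV₀V (hz₀V i)) hLz₀ fun i => hT₀T (ht₀V i))
      (key z₁ t₁ (fun i => hV₁V (hz₁V i)) hLz₁ fun i => hT₁T (ht₁V i))
  have hf0 : (ET t₀ ∪ E1 L z₀).Finite := (ET_finite t₀).union (E1_finite z₀)
  have hf1 : (ET t₁ ∪ E1 L z₁).Finite := (ET_finite t₁).union (E1_finite z₁)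
  have hf : (ET t ∪ E1 L z).Finite := (ET_finite t).union (E1_finite z)
  rw [rank_add hf0 hf1] at hr3
  have hr4 : clo C (ET t₀ ∪ E1 L z₀) ≤ IFd K := by
    apply clo_le_IFd hK hCK
    rintro _ ((⟨i, rfl⟩ | ⟨i, rfl⟩) | ⟨i, rfl⟩ | ⟨i, rfl⟩)
    · exact (ht₀V i).2
    · exact hK.exp _ (ht₀V i).2
    · exact (hz₀V i).2
    · exact hK.wp L hL _ (hz₀V i).2
  have hr5 := rank_mono_base hr4 hf1
  have hrk := h.rk
  -- the ranks as numbers
  have hnat : ∀ (F : IntermediateField ℚ ℂ) {S : Set ℂ}, S.Finite →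
      ∃ r : ℕ, (MK F).eRk S = r := by
    intro F S hS
    have : (MK F).eRk S ≠ ⊤ := by
      rw [← lt_top_iff_ne_top]
      exact lt_of_le_of_lt ((MK _).eRk_le_encard _) hS.encard_lt_top
    exact ⟨_, (ENat.natCast_toNat this).symm⟩
  obtain ⟨r4, hr⟩ := hnat C hf0
  obtain ⟨r1, hq1⟩ := hnat (IFd K) hf1
  obtain ⟨r2, hq2⟩ := hnat (clo C (ET t₀ ∪ E1 L z₀)) hf1
  obtain ⟨r3, hq3⟩ := hnat C hf
  replace hch := hch.trans hr1'
  rw [hq1] at hch
  rw [hq1, hq2] at hr5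
  rw [hr, hq2, hq3] at hr3
  rw [hq3] at hrk
  have e1 : 2 * finrank (kL L) V₁ + finrank ℚ T₁ + finrank ℂ (Δ.map (eVT V₁ T₁)) ≤
      r1 + finrank (kL L) V₁ := by
    exact_mod_cast hch
  have e2 : r1 ≤ r2 := by exact_mod_cast hr5
  have e3 : r4 + r2 ≤ r3 := by exact_mod_cast hr3
  have e4 : r3 + m ≤ s + n + c := by exact_mod_cast hrk
  -- the field of definition
  have hT0 : (TYE L z₀ t₀).Finite := TYE_finite z₀ t₀
  have hT1 : (TYE L z t).Finite := TYE_finite z t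
  have f1 : (MK (C0 L)).eRk (TYE L z₀ t₀ ∪ TYE L z t) ≤ (r : ℕ∞) := by
    refine le_trans (rk_le_of_subset_cl ?_) h.ty
    rintro u ((⟨i, rfl⟩ | ⟨i, rfl⟩) | hu)
    · rw [← mem_clo_iff]
      intro D hD hS
      exact exp_spanQ (fun j => hS _ (Or.inl ⟨j, rfl⟩)) (ht₀V i).1
    · rw [← mem_clo_iff]
      intro D hD hS
      exact wp_spanK (hD _ g2_C0) (hD _ g3_C0) (fun j => hS _ (Or.inr ⟨j, rfl⟩)) (hz₀V i).1 (hLz₀ i)
    · exact subset_cl _ hu
  rw [rank_add hT0 hT1] at f1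
  have f2 : clo (C0 L) (TYE L z₀ t₀) ≤ IFd K := by
    apply clo_le_IFd hK
    · apply clo_le_IFd hK bot_le
      rintro u (rfl | rfl)
      · exact hL2
      · exact hL3
    rintro _ (⟨i, rfl⟩ | ⟨i, rfl⟩)
    · exact hK.exp _ (ht₀V i).2
    · exact hK.wp L hL _ (hz₀V i).2
  have f3 := rank_mono_base f2 hT1
  obtain ⟨ρ₀, hρ₀⟩ := hnat (C0 L) hT0
  obtain ⟨ρ₁, hρ₁⟩ := hnat (IFd K) hT1
  obtain ⟨ρ₂, hρ₂⟩ := hnat (clo (C0 L) (TYE L z₀ t₀)) hT1
  have f4 := Tan_le_type hK hL z t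
  rw [hρ₀, hρ₂] at f1
  rw [hρ₁, hρ₂] at f3
  rw [hρ₁] at f4
  have g1 : ρ₀ + ρ₂ ≤ r := by exact_mod_cast f1
  have g2 : ρ₁ ≤ ρ₂ := by exact_mod_cast f3
  have g3 : d ≤ ρ₁ := by exact_mod_cast f4
  refine ⟨⟨finrank (kL L) V₀, finrank ℚ T₀, ρ₀, z₀, t₀, by omega, by omega, by omega, by omega, hLz₀,
    h.indP.sub hz₀ fun i => hV₀V (hz₀V i), h.indE.sub ht₀ fun i => hT₀T (ht₀V i), ?_, hρ₀.le⟩,
    fun h0 => ?_⟩
  · rw [← hC, hr]
    exact_mod_cast (by omega : r4 + (m + d) ≤ finrank ℚ T₀ + finrank (kL L) V₀ + c)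
  · have hTan : Tan PF' K (Pf' L (Fin.append z t)) = ⊥ := Submodule.finrank_eq_zero.1 h0
    have key : ∀ j, Fin.append z t j ∈ K := by
      intro j
      by_contra hj
      obtain ⟨v, hvT, hv⟩ := good_Tan (hK.good L hL n s z t j h.off hj)
      rw [hTan, Submodule.mem_bot] at hvT
      rw [hvT] at hv
      exact zero_ne_one hv
    refine ⟨fun j => ?_, fun j => ?_⟩
    · have := key (Fin.castAdd s j)
      rwa [Fin.append_left] at this
    · have := key (Fin.natAdd n j)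
      rwa [Fin.append_right] at this

end Pool.Agent.H445
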