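import Pool.Agent.H445.ET.C

/-!
# Points and exponents over fields of small transcendence degree: the dimension formula, first kind
-/

set_option autoImplicit false

open Set Module MvPolynomial
open Pool.Agent.TH813.Rel (DF MK subset_cl rk_le_of_subset_cl cl_of_base exists_derF)
open Pool.Agent.Y685
open Pool.Agent.Y776 (ET ET_finite)
open Pool.Agent.W245.EB Pool.Agent.TH813.Ell H667R3
open scoped PeriodPair NNReal ENNReal

noncomputable section

namespace Pool.Agent.H445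

variable {L : PeriodPair} {n s : ℕ} {c r m : ℕ}

abbrev A0 (L : PeriodPair) : Submodule (kL L) ℂ := ⊥

abbrev B0 : Submodule ℚ ℂ := ⊥

theorem baseU (L : PeriodPair) : BaseM L {L.g₂, L.g₃} (A0 L) B0 where
  fin := by simp
  g2 := fun _ _ h => h _ (by simp)
  g3 := fun _ _ h => h _ (by simp)
  finA := inferInstance
  finB := inferInstance

/-- the set of the independent failures -/
def SU (L : PeriodPair) (c n s r m : ℕ) : Set (Fin (n + s) → ℂ) :=
  {w | FailU L (A0 L) B0 c n s r m (fun i => w (Fin.castAdd s i)) (fun i => w (Fin.natAdd n i))}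

/-- the pairs of tuples, dependent or not -/
structure PairU (L : PeriodPair) (c n s r m : ℕ) (z : Fin n → ℂ) (t : Fin s → ℂ) : Prop where
  off : ∀ i, z i ∉ L.lattice
  ty : (MK (C0 L)).eRk (TYE L z t) ≤ (r : ℕ∞)
  rk : (MK (C0 L)).eRk (ET t ∪ E1 L z) + m ≤ ((dimQ B0 t + c + dimQ (A0 L) z : ℕ) : ℕ∞)

/-- the set of all failures -/
def VU (L : PeriodPair) (c n s r m : ℕ) : Set (Fin (n + s) → ℂ) :=
  {w | PairU L c n s r m (fun i => w (Fin.castAdd s i)) (fun i => w (Fin.natAdd n i))}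

theorem mem_SU {w : Fin (n + s) → ℂ} : w ∈ SU L c n s r m ↔
    FailU L (A0 L) B0 c n s r m (fun i => w (Fin.castAdd s i)) (fun i => w (Fin.natAdd n i)) := Iff.rfl

theorem append_mem_SU {z : Fin n → ℂ} {t : Fin s → ℂ} : Fin.append z t ∈ SU L c n s r m ↔
    FailU L (A0 L) B0 c n s r m z t := by
  rw [mem_SU]
  simp only [Fin.append_left, Fin.append_right]

theorem append_mem_VU {z : Fin n → ℂ} {t : Fin s → ℂ} : Fin.append z t ∈ VU L c n s r m ↔
    PairU L c n s r m z t := by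
  unfold VU
  rw [mem_ofPred_eq]
  simp only [Fin.append_left, Fin.append_right]

theorem SU_nonempty : (SU L c n s r m).Nonempty ↔
    ∃ (z : Fin n → ℂ) (t : Fin s → ℂ), FailU L (A0 L) B0 c n s r m z t := by
  constructor
  · rintro ⟨w, hw⟩
    exact ⟨_, _, hw⟩
  · rintro ⟨z, t, h⟩
    exact ⟨_, append_mem_SU.2 h⟩

theorem E1_comp_subset {n' : ℕ} (z : Fin n → ℂ) (σ : Fin n' → Fin n) : E1 L (fun i => z (σ i)) ⊆ E1 L z := by
  rintro _ (⟨i, rfl⟩ | ⟨i, rfl⟩)
  · exact Or.inl ⟨σ i, rfl⟩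
  · exact Or.inr ⟨σ i, rfl⟩

/-- reduction to independent tuples -/
theorem VU_sub {w : Fin (n + s) → ℂ} (hw : w ∈ VU L c n s r m) :
    ∃ (q : AffI L (A0 L) B0 n s) (u : Fin (q.n₁ + q.s₁) → ℂ), u ∈ SU L c q.n₁ q.s₁ r m ∧ q.map u = w := by
  obtain ⟨h1, h3, h2⟩ := hw
  set z : Fin n → ℂ := fun i => w (Fin.castAdd s i) with hz
  set t : Fin s → ℂ := fun i => w (Fin.natAdd n i) with ht
  obtain ⟨σ, hσ, hσ'⟩ := exists_sub (A0 L) z
  obtain ⟨τ, hτ, hτ'⟩ := exists_sub B0 t
  choose M a hM using hσ'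
  choose N b hN using hτ'
  refine ⟨⟨dimQ (A0 L) z, dimQ B0 t, dimQ_le _ z, dimQ_le _ t, M, a, N, b⟩,
    Fin.append (fun i => z (σ i)) (fun i => t (τ i)), append_mem_SU.2 ⟨fun i => h1 (σ i),
      IndP_iff.2 hσ, IndE_iff.2 hτ, ?_, ?_⟩, ?_⟩
  · refine le_trans (add_le_add ((MK _).eRk_mono
      (union_subset_union (ET_comp_subset t τ) (E1_comp_subset z σ))) le_rfl) (h2.trans ?_)
    exact_mod_cast (by omega : dimQ B0 t + c + dimQ (A0 L) z ≤ dimQ B0 t + dimQ (A0 L) z + c)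
  · exact ((MK _).eRk_mono (TYE_comp_subset z t σ τ)).trans h3
  · funext i
    refine Fin.addCases (fun i => ?_) (fun i => ?_) i
    · simp only [AffI.map, Fin.append_left]
      exact (hM i).symm
    · simp only [AffI.map, Fin.append_right]
      rw [show w (Fin.natAdd n i) = t i from rfl, hN i]
      congr 1

theorem FailU.mono {r' m' : ℕ} {A : Submodule (kL L) ℂ} {B : Submodule ℚ ℂ} (hr : r ≤ r') (hm : m ≤ m')
    {z : Fin n → ℂ} {t : Fin s → ℂ} (h : FailU L A B c n s r m' z t) : FailU L A B c n s r' m z t :=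
  ⟨h.off, h.indP, h.indE, le_trans (by gcongr) h.rk, h.ty.trans (by exact_mod_cast hr)⟩

/-- the half period -/
theorem half_C0 (L : PeriodPair) : ℘[L] (L.ω₁ / 2) ∈ C0 L := by
  intro D _ h
  have h4 : 2 * (L.ω₁ / 2) ∈ L.lattice := by
    have h2 : 2 * (L.ω₁ / 2) = L.ω₁ := by ring
    rw [h2]
    exact L.ω₁_mem_lattice
  exact (wp_killed (h _ (by simp)) (h _ (by simp)) (om_of_two_mul_mem L D h4)
    L.ω₁_div_two_notMem_lattice).1

/-- adding numbers for free -/
theorem FailU.pad {n₁ s₁ : ℕ} (hn : n₁ ≤ n) (hs : s₁ ≤ s)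
    {z : Fin n₁ → ℂ} {t : Fin s₁ → ℂ} (h : FailU L (A0 L) B0 c n₁ s₁ r m z t) :
    ∃ p₀ : ℂ, PairU L c n s r m (padF n p₀ z) (padF s 0 t) := by
  have hT : ∀ {S : Set ℂ}, ET t ⊆ (MK (C0 L)).closure S →
      ET (padF s 0 t : Fin s → ℂ) ⊆ (MK (C0 L)).closure S := by
    rintro S hS x (⟨i, rfl⟩ | ⟨i, rfl⟩)
    · by_cases hi : (i : ℕ) < s₁
      · rw [padF_lt hi]
        exact hS (Or.inl ⟨_, rfl⟩)
      · rw [padF_ge hi]
        exact alg_mem_clF isAlgebraic_zero _
    · beta_reduce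
      by_cases hi : (i : ℕ) < s₁
      · rw [padF_lt hi]
        exact hS (Or.inr ⟨_, rfl⟩)
      · rw [padF_ge hi, Complex.exp_zero]
        exact alg_mem_clF isAlgebraic_one _
  have h2 := dimQ_pad (n := s) (p₀ := 0) hs (IndE_iff.1 h.indE)
  have hty : ∀ p₀ : ℂ, (∀ i : Fin n, ¬ (i : ℕ) < n₁ → ℘[L] p₀ ∈ (MK (C0 L)).closure (TYE L z t)) →
      (MK (C0 L)).eRk (TYE L (padF n p₀ z) (padF s 0 t)) ≤ (r : ℕ∞) := by
    intro p₀ hp
    refine le_trans (rk_le_of_subset_cl (T := TYE L z t) ?_) h.ty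
    rintro x (⟨i, rfl⟩ | ⟨i, rfl⟩)
    · beta_reduce
      by_cases hi : (i : ℕ) < s₁
      · rw [padF_lt hi]
        exact subset_cl _ (Or.inl ⟨_, rfl⟩)
      · rw [padF_ge hi, Complex.exp_zero]
        exact alg_mem_clF isAlgebraic_one _
    · beta_reduce
      by_cases hi : (i : ℕ) < n₁
      · rw [padF_lt hi]
        exact subset_cl _ (Or.inr ⟨_, rfl⟩)
      · rw [padF_ge hi]
        exact hp i hi
  rcases Nat.eq_zero_or_pos n₁ with h0 | h0
  · rcases Nat.eq_zero_or_pos n with hn0 | hn0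
    · refine ⟨0, fun i => absurd i.2 (by omega), hty 0 fun i => absurd i.2 (by omega), ?_⟩
      have h3 : (MK (C0 L)).eRk (ET (padF s 0 t : Fin s → ℂ) ∪ E1 L (padF n 0 z : Fin n → ℂ)) ≤
          (MK (C0 L)).eRk (ET t ∪ E1 L z) := by
        apply rk_le_of_subset_cl
        refine union_subset (hT fun x hx => subset_cl _ (Or.inl hx)) ?_
        rintro x (⟨i, rfl⟩ | ⟨i, rfl⟩)
        · exact absurd i.2 (by omega)
        · exact absurd i.2 (by omega)
      refine (add_le_add h3 le_rfl).trans (h.rk.trans ?_)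
      exact_mod_cast (by omega : s₁ + n₁ + c ≤ dimQ B0 (padF s 0 t : Fin s → ℂ) + c +
        dimQ (A0 L) (padF n 0 z : Fin n → ℂ))
    · refine ⟨L.ω₁ / 2, fun i => ?_, hty _ fun i hi => ?_, ?_⟩
      · rw [padF_ge (by omega)]
        exact L.ω₁_div_two_notMem_lattice
      · rw [← mem_clo_iff]
        intro D hD' _
        exact hD' _ (half_C0 L)
      · have h3 : (MK (C0 L)).eRk (ET (padF s 0 t : Fin s → ℂ) ∪ E1 L (padF n (L.ω₁ / 2) z : Fin n → ℂ)) ≤
            (MK (C0 L)).eRk (ET t ∪ E1 L z) + 1 := by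
          refine (rk_le_of_subset_cl (T := insert (L.ω₁ / 2) (ET t ∪ E1 L z)) ?_).trans
            ((MK (C0 L)).eRk_insert_le_add_one _ _)
          refine union_subset (hT fun x hx => subset_cl _ (Or.inr (Or.inl hx))) ?_
          rintro x (⟨i, rfl⟩ | ⟨i, rfl⟩)
          · rw [padF_ge (by omega)]
            exact subset_cl _ (Or.inl rfl)
          · beta_reduce
            rw [padF_ge (by omega), ← mem_clo_iff]
            intro D hD' _
            exact hD' _ (half_C0 L)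
        have h5 : 1 ≤ dimQ (A0 L) (padF n (L.ω₁ / 2) z : Fin n → ℂ) := by
          have h6 : LinearIndependent (kL L) (fun _ : Fin 1 => (A0 L).mkQ (L.ω₁ / 2)) := by
            apply LinearIndependent.of_subsingleton 0
            rw [ne_eq, Submodule.mkQ_apply, Submodule.Quotient.mk_eq_zero, Submodule.mem_bot]
            intro h7
            apply L.ω₁_div_two_notMem_lattice
            rw [h7]
            exact zero_mem _
          have h7 := dimQ_pad (n := n) (p₀ := L.ω₁ / 2) (by omega : 1 ≤ n) h6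
          have h8 : (padF n (L.ω₁ / 2) (fun _ : Fin 1 => L.ω₁ / 2) : Fin n → ℂ) = padF n (L.ω₁ / 2) z := by
            funext i
            rw [padF_ge (n₁ := n₁) (by omega)]
            by_cases hi : (i : ℕ) < 1
            · rw [padF_lt hi]
            · rw [padF_ge hi]
          rwa [h8] at h7
        have h9 := h.rk
        calc (MK (C0 L)).eRk (ET (padF s 0 t : Fin s → ℂ) ∪ E1 L (padF n (L.ω₁ / 2) z : Fin n → ℂ)) + m
            ≤ ((MK (C0 L)).eRk (ET t ∪ E1 L z) + 1) + m := add_le_add h3 le_rfl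
          _ = ((MK (C0 L)).eRk (ET t ∪ E1 L z) + m) + 1 := by ring
          _ ≤ ((s₁ + n₁ + c : ℕ) : ℕ∞) + 1 := add_le_add h9 le_rfl
          _ ≤ _ := by
            exact_mod_cast (by omega : s₁ + n₁ + c + 1 ≤ dimQ B0 (padF s 0 t : Fin s → ℂ) + c +
              dimQ (A0 L) (padF n (L.ω₁ / 2) z : Fin n → ℂ))
  · refine ⟨z ⟨0, h0⟩, fun i => ?_, hty _ fun i hi => subset_cl _ (Or.inr ⟨_, rfl⟩), ?_⟩
    · by_cases hi : (i : ℕ) < n₁
      · rw [padF_lt hi]
        exact h.off _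
      · rw [padF_ge hi]
        exact h.off _
    · have h1 := dimQ_pad (n := n) (p₀ := z ⟨0, h0⟩) hn (IndP_iff.1 h.indP)
      have h3 : (MK (C0 L)).eRk (ET (padF s 0 t : Fin s → ℂ) ∪ E1 L (padF n (z ⟨0, h0⟩) z : Fin n → ℂ)) ≤
          (MK (C0 L)).eRk (ET t ∪ E1 L z) := by
        apply rk_le_of_subset_cl
        refine union_subset (hT fun x hx => subset_cl _ (Or.inl hx)) ?_
        rintro x (⟨i, rfl⟩ | ⟨i, rfl⟩)
        · by_cases hi : (i : ℕ) < n₁
          · rw [padF_lt hi]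
            exact subset_cl _ (Or.inr (Or.inl ⟨_, rfl⟩))
          · rw [padF_ge hi]
            exact subset_cl _ (Or.inr (Or.inl ⟨_, rfl⟩))
        · beta_reduce
          by_cases hi : (i : ℕ) < n₁
          · rw [padF_lt hi]
            exact subset_cl _ (Or.inr (Or.inr ⟨_, rfl⟩))
          · rw [padF_ge hi]
            exact subset_cl _ (Or.inr (Or.inr ⟨_, rfl⟩))
      refine (add_le_add h3 le_rfl).trans (h.rk.trans ?_)
      exact_mod_cast (by omega : s₁ + n₁ + c ≤ dimQ B0 (padF s 0 t : Fin s → ℂ) + c +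
        dimQ (A0 L) (padF n (z ⟨0, h0⟩) z : Fin n → ℂ))

theorem VU_nonempty : (VU L c n s r m).Nonempty ↔ ∃ n₁ s₁, n₁ ≤ n ∧ s₁ ≤ s ∧ (SU L c n₁ s₁ r m).Nonempty := by
  constructor
  · rintro ⟨w, hw⟩
    obtain ⟨q, u, hu, -⟩ := VU_sub hw
    exact ⟨_, _, q.hn, q.hs, u, hu⟩
  · rintro ⟨n₁, s₁, hn, hs, w, hw⟩
    obtain ⟨p₀, h⟩ := FailU.pad hn hs hw
    exact ⟨_, append_mem_VU.2 h⟩

/-- the admissible levels -/
def LevU (L : PeriodPair) (c n s r m : ℕ) : Set ℕ :=
  {d | d ≤ r ∧ ∃ b a : ℕ, b ≤ n ∧ a ≤ s ∧ b + a = d ∧ (VU L c (n - b) (s - a) (r - d) (m + d)).Nonempty}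

theorem LevU_bdd : BddAbove (LevU L c n s r m) := ⟨r, fun _ h => h.1⟩

theorem LevU_mono {n₁ s₁ : ℕ} (hn : n₁ ≤ n) (hs : s₁ ≤ s) : LevU L c n₁ s₁ r m ⊆ LevU L c n s r m := by
  rintro d ⟨h0, b, a, h1, h2, h3, h4⟩
  obtain ⟨n', s', h5, h6, h7⟩ := VU_nonempty.1 h4
  exact ⟨h0, b, a, by omega, by omega, h3, VU_nonempty.2 ⟨n', s', by omega, by omega, h7⟩⟩

/-- the level of a failure -/
theorem FailU.level {K : Subfield ℂ} (hK : Fld K) (hL : L ∈ LK K) {w : Fin (n + s) → ℂ}
    (hw : w ∈ SU L c n s r m) :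
    finrank ℂ (Tan PF' K (Pf' L w)) ∈ LevU L c n s r m ∧
      (finrank ℂ (Tan PF' K (Pf' L w)) = 0 → ∀ j, w j ∈ K) := by
  obtain ⟨⟨n₀, s₀, r₀, z₀, t₀, h1, h2, h3, h4, h6⟩, h5⟩ := FailU.reduce (mem_SU.1 hw) hK hL
  rw [append_eta] at h3 h4 h5 h6
  constructor
  · refine ⟨by omega, min (finrank ℂ (Tan PF' K (Pf' L w))) (n - n₀),
      finrank ℂ (Tan PF' K (Pf' L w)) - min (finrank ℂ (Tan PF' K (Pf' L w))) (n - n₀), by omega,
      by omega, by omega, VU_nonempty.2 ⟨n₀, s₀, by omega, by omega, SU_nonempty.2 ⟨z₀, t₀,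
        h6.mono (by omega) le_rfl⟩⟩⟩
  · intro h0
    obtain ⟨h6, h7⟩ := h5 h0
    intro j
    refine Fin.addCases (fun i => ?_) (fun j => ?_) j
    · exact h6 i
    · exact h7 j

/-- generic points and exponents -/
theorem FailU.generic {K : Subfield ℂ} {b a : ℕ} {z : Fin n → ℂ} {t : Fin s → ℂ}
    (h : FailU L (A0 L) B0 c n s r (m + (b + a)) z t) (hL : L ∈ LK K)
    (hz : ∀ i, z i ∈ K) (ht : ∀ i, t i ∈ K) {w : Fin (b + a) → ℂ} (hw : w ∈ Gen K (b + a)) :
    FailU L (A0 L) B0 c (n + b) (s + a) (r + (b + a)) m (Fin.append z fun i => w (Fin.castAdd a i))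
      (Fin.append t fun i => w (Fin.natAdd b i)) := by
  have hr : ∀ {d : ℕ} (f : Fin d → ℂ), (range f).encard ≤ d := by
    intro d f
    rw [← image_univ]
    refine (encard_image_le _ _).trans ?_
    rw [encard_univ]
    simp
  have aux : FailM L ∅ (A0 L) B0 (2 * s + 3 * n + (b + a)) n s (0 + (b + a)) z t := by
    refine ⟨h.off, h.indP, h.indE, ?_⟩
    rw [empty_union]
    have h1 : (MK (⊥ : IntermediateField ℚ ℂ)).eRk (ET t ∪ EP L z) ≤ ((2 * s + 3 * n : ℕ) : ℕ∞) := by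
      refine ((MK _).eRk_le_encard _).trans ((encard_union_le _ _).trans ?_)
      rw [Nat.cast_add]
      exact add_le_add (encard_ET t) (encard_EP z)
    refine (add_le_add h1 le_rfl).trans ?_
    exact_mod_cast (by omega : 2 * s + 3 * n + (0 + (b + a)) ≤ s + 2 * n + (2 * s + 3 * n + (b + a)))
  have aux2 := FailM.generic aux hL (fun x hx => by rw [(Submodule.mem_bot _).1 hx]; exact K.zero_mem)
    (fun x hx => by rw [(Submodule.mem_bot _).1 hx]; exact K.zero_mem) hz ht hw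
  refine ⟨aux2.off, aux2.indP, aux2.indE, ?_, ?_⟩
  · have e1 : E1 L (Fin.append z fun i => w (Fin.castAdd a i)) = E1 L z ∪ E1 L (fun i => w (Fin.castAdd a i)) := by
      ext x
      constructor
      · rintro (⟨i, rfl⟩ | ⟨i, rfl⟩)
        · refine Fin.addCases (fun i => ?_) (fun j => ?_) i
          · exact Or.inl (Or.inl ⟨i, by rw [Fin.append_left]⟩)
          · exact Or.inr (Or.inl ⟨j, by rw [Fin.append_right]⟩)
        · refine Fin.addCases (fun i => ?_) (fun j => ?_) i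
          · exact Or.inl (Or.inr ⟨i, by beta_reduce; rw [Fin.append_left]⟩)
          · exact Or.inr (Or.inr ⟨j, by beta_reduce; rw [Fin.append_right]⟩)
      · rintro ((⟨i, rfl⟩ | ⟨i, rfl⟩) | (⟨i, rfl⟩ | ⟨i, rfl⟩))
        · exact Or.inl ⟨Fin.castAdd b i, by rw [Fin.append_left]⟩
        · exact Or.inr ⟨Fin.castAdd b i, by beta_reduce; rw [Fin.append_left]⟩
        · exact Or.inl ⟨Fin.natAdd n i, by rw [Fin.append_right]⟩
        · exact Or.inr ⟨Fin.natAdd n i, by beta_reduce; rw [Fin.append_right]⟩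
    have e2 : ET (Fin.append t fun i => w (Fin.natAdd b i)) ∪ E1 L (Fin.append z fun i => w (Fin.castAdd a i)) =
        (ET t ∪ E1 L z) ∪ (ET (fun i => w (Fin.natAdd b i)) ∪ E1 L (fun i => w (Fin.castAdd a i))) := by
      rw [e1, ET_append]
      ext x
      simp only [mem_union]
      tauto
    rw [e2]
    have h1 := (MK (C0 L)).eRk_union_le_eRk_add_encard (ET t ∪ E1 L z)
      (ET (fun i => w (Fin.natAdd b i)) ∪ E1 L (fun i => w (Fin.castAdd a i)))
    have h2 : (ET (fun i => w (Fin.natAdd b i)) ∪ E1 L (fun i => w (Fin.castAdd a i))).encard ≤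
        ((2 * a + 2 * b : ℕ) : ℕ∞) := by
      refine (encard_union_le _ _).trans ?_
      rw [Nat.cast_add]
      refine add_le_add (encard_ET _) ?_
      refine (encard_union_le _ _).trans ?_
      rw [two_mul, Nat.cast_add]
      exact add_le_add (hr _) (hr _)
    have h3 := h.rk
    calc (MK (C0 L)).eRk ((ET t ∪ E1 L z) ∪ (ET (fun i => w (Fin.natAdd b i)) ∪
          E1 L (fun i => w (Fin.castAdd a i)))) + m
        ≤ ((MK (C0 L)).eRk (ET t ∪ E1 L z) + ((2 * a + 2 * b : ℕ) : ℕ∞)) + m :=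
          add_le_add (h1.trans (add_le_add le_rfl h2)) le_rfl
      _ = ((MK (C0 L)).eRk (ET t ∪ E1 L z) + (m + (b + a) : ℕ)) + (a + b : ℕ) := by
          push_cast
          ring
      _ ≤ ((s + n + c : ℕ) : ℕ∞) + (a + b : ℕ) := add_le_add h3 le_rfl
      _ = (((s + a) + (n + b) + c : ℕ) : ℕ∞) := by
          push_cast
          ring
  · have e : TYE L (Fin.append z fun i => w (Fin.castAdd a i)) (Fin.append t fun i => w (Fin.natAdd b i)) =
        TYE L z t ∪ TYE L (fun i => w (Fin.castAdd a i)) (fun i => w (Fin.natAdd b i)) := by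
      ext x
      constructor
      · rintro (⟨i, rfl⟩ | ⟨i, rfl⟩)
        · refine Fin.addCases (fun i => ?_) (fun j => ?_) i
          · exact Or.inl (Or.inl ⟨i, by beta_reduce; rw [Fin.append_left]⟩)
          · exact Or.inr (Or.inl ⟨j, by beta_reduce; rw [Fin.append_right]⟩)
        · refine Fin.addCases (fun i => ?_) (fun j => ?_) i
          · exact Or.inl (Or.inr ⟨i, by beta_reduce; rw [Fin.append_left]⟩)
          · exact Or.inr (Or.inr ⟨j, by beta_reduce; rw [Fin.append_right]⟩)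
      · rintro ((⟨i, rfl⟩ | ⟨i, rfl⟩) | (⟨i, rfl⟩ | ⟨i, rfl⟩))
        · exact Or.inl ⟨Fin.castAdd a i, by beta_reduce; rw [Fin.append_left]⟩
        · exact Or.inr ⟨Fin.castAdd b i, by beta_reduce; rw [Fin.append_left]⟩
        · exact Or.inl ⟨Fin.natAdd s i, by beta_reduce; rw [Fin.append_right]⟩
        · exact Or.inr ⟨Fin.natAdd n i, by beta_reduce; rw [Fin.append_right]⟩
    rw [e]
    refine ((MK (C0 L)).eRk_union_le_eRk_add_encard _ _).trans ?_
    rw [Nat.cast_add]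
    refine add_le_add h.ty ?_
    refine (encard_union_le _ _).trans ?_
    rw [Nat.cast_add, add_comm]
    exact add_le_add (hr _) (hr _)

theorem LevU_down {d e : ℕ} (hed : e ≤ d) (hd : d ∈ LevU L c n s r m) : e ∈ LevU L c n s r m := by
  obtain ⟨h0, b, a, h1, h2, rfl, h3⟩ := hd
  obtain ⟨n', s', hn, hs, h4⟩ := VU_nonempty.1 h3
  obtain ⟨z, t, h5⟩ := SU_nonempty.1 h4
  obtain ⟨K, hK, hL, -, hS, -, -⟩ := (baseU L).exists_field (S := range z ∪ range t)
    ((countable_range z).union (countable_range t))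
  set b' := min b e with hb'
  set a' := e - b' with ha'
  obtain ⟨w, hw⟩ := Gen_nonempty hK.cnt ((b - b') + (a - a'))
  have h6 : FailU L (A0 L) B0 c n' s' (r - (b + a)) ((m + e) + ((b - b') + (a - a'))) z t := by
    refine h5.mono le_rfl ?_
    omega
  have h7 := FailU.generic h6 hL (fun i => hS (Or.inl ⟨i, rfl⟩)) (fun i => hS (Or.inr ⟨i, rfl⟩)) hw
  refine ⟨by omega, b', a', by omega, by omega, by omega, VU_nonempty.2 ⟨n' + (b - b'), s' + (a - a'),
    by omega, by omega, SU_nonempty.2 ⟨_, _, h7.mono (by omega) le_rfl⟩⟩⟩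

theorem lowerU {d : ℕ} (hd : d ∈ LevU L c n s r m) : ((2 * d : ℕ) : ℝ≥0∞) ≤ dimH (VU L c n s r m) := by
  obtain ⟨h0, b, a, h1, h2, rfl, h3⟩ := hd
  obtain ⟨n', s', hn, hs, h4⟩ := VU_nonempty.1 h3
  obtain ⟨z, t, h5⟩ := SU_nonempty.1 h4
  obtain ⟨K, hK, hL, -, hS, -, -⟩ := (baseU L).exists_field (S := range z ∪ range t)
    ((countable_range z).union (countable_range t))
  have h6 : ∀ w ∈ Gen K (b + a), ∃ p₀ : ℂ, Fin.append (padF n p₀ (Fin.append z fun i => w (Fin.castAdd a i)))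
      (padF s 0 (Fin.append t fun i => w (Fin.natAdd b i))) ∈ VU L c n s r m := by
    intro w hw
    obtain ⟨p₀, h⟩ := FailU.pad (n := n) (s := s) (n₁ := n' + b) (s₁ := s' + a) (by omega) (by omega)
      ((FailU.generic h5 hL (fun i => hS (Or.inl ⟨i, rfl⟩))
        (fun i => hS (Or.inr ⟨i, rfl⟩)) hw).mono (by omega : r - (b + a) + (b + a) ≤ r) le_rfl)
    exact ⟨p₀, append_mem_VU.2 h⟩
  let σ : Fin (b + a) → Fin (n + s) := Fin.addCases
    (fun i => Fin.castAdd s ⟨n' + i, by omega⟩) (fun i => Fin.natAdd n ⟨s' + i, by omega⟩)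
  let π : (Fin (n + s) → ℂ) →L[ℂ] (Fin (b + a) → ℂ) :=
    ContinuousLinearMap.pi fun j => ContinuousLinearMap.proj (σ j)
  refine (dimH_Gen hK.cnt (b + a)).trans (le_trans (dimH_mono ?_)
    (π.lipschitz.dimH_image_le (VU L c n s r m)))
  intro w hw
  obtain ⟨p₀, hp₀⟩ := h6 w hw
  refine ⟨_, hp₀, ?_⟩
  funext j
  change Fin.append (padF n p₀ (Fin.append z fun i => w (Fin.castAdd a i)))
      (padF s 0 (Fin.append t fun i => w (Fin.natAdd b i))) (σ j) = w j
  refine Fin.addCases (fun i => ?_) (fun i => ?_) j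
  · simp only [σ, Fin.addCases_left, Fin.append_left]
    rw [padF_lt (by simp)]
    exact Fin.append_right z _ i
  · simp only [σ, Fin.addCases_right, Fin.append_right]
    rw [padF_lt (by simp)]
    exact Fin.append_right t _ i

/-- the upper bound for independent tuples -/
theorem upperU : dimH (SU L c n s r m) ≤ (2 * sSup (LevU L c n s r m) : ℕ) := by
  obtain ⟨K, hK, hL, -, -, -, -⟩ := (baseU L).exists_field (S := ∅) Set.countable_empty
  refine (dimH_mono ?_).trans (dimH_Tan (P := PF' (n := n) (s := s)) (K := K) (Φ := Pf' L) hK.cnt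
    (isOpen_Uf L) (fun x hx s₀ => Pf'_der L hx s₀) (sSup (LevU L c n s r m))).1
  intro w hw
  exact ⟨(mem_SU.1 hw).off, le_csSup LevU_bdd (FailU.level hK hL hw).1⟩

/-- **The dimension formula** -/
theorem dimU : dimH (VU L c n s r m) = (2 * sSup (LevU L c n s r m) : ℕ) := by
  apply le_antisymm
  · have := countable_AffI (n := n) (s := s) (baseU L)
    have h1 : VU L c n s r m ⊆ ⋃ q : AffI L (A0 L) B0 n s, q.map '' SU L c q.n₁ q.s₁ r m := by
      intro w hw
      obtain ⟨q, u, hu, rfl⟩ := VU_sub hw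
      exact mem_iUnion.2 ⟨q, u, hu, rfl⟩
    refine (dimH_mono h1).trans ?_
    rw [dimH_iUnion]
    refine iSup_le fun q => ?_
    obtain ⟨K, hK⟩ := q.lipschitz
    refine (hK.dimH_image_le _).trans (upperU.trans ?_)
    have h2 : sSup (LevU L c q.n₁ q.s₁ r m) ≤ sSup (LevU L c n s r m) := by
      rcases Set.eq_empty_or_nonempty (LevU L c q.n₁ q.s₁ r m) with h | h
      · rw [h, csSup_empty]
        exact Nat.zero_le _
      · exact csSup_le_csSup LevU_bdd h (LevU_mono q.hn q.hs)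
    exact_mod_cast Nat.mul_le_mul_left 2 h2
  · rcases Set.eq_empty_or_nonempty (LevU L c n s r m) with h | h
    · rw [h, csSup_empty]
      simp
    · exact lowerU (Nat.sSup_mem h LevU_bdd)

/-- **Countability** -/
theorem countableU : (VU L c n s r m).Countable ↔ 1 ∉ LevU L c n s r m := by
  constructor
  · intro h h1
    have h2 := lowerU h1
    rw [h.dimH_zero] at h2
    norm_num at h2
  · intro h
    have := countable_AffI (n := n) (s := s) (baseU L)
    have h1 : VU L c n s r m ⊆ ⋃ q : AffI L (A0 L) B0 n s, q.map '' SU L c q.n₁ q.s₁ r m := by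
      intro w hw
      obtain ⟨q, u, hu, rfl⟩ := VU_sub hw
      exact mem_iUnion.2 ⟨q, u, hu, rfl⟩
    refine (Set.countable_iUnion fun q => ?_).mono h1
    refine Set.Countable.image ?_ _
    obtain ⟨K, hK, hL, -, -, -, -⟩ := (baseU L).exists_field (S := ∅) Set.countable_empty
    refine Set.Countable.mono ?_ (Set.countable_univ_pi fun _ : Fin (q.n₁ + q.s₁) => hK.cnt)
    intro w hw j _
    obtain ⟨h1, h2⟩ := FailU.level hK hL hw
    refine h2 ?_ j
    by_contra h0
    exact h (LevU_mono q.hn q.hs (LevU_down (Nat.one_le_iff_ne_zero.2 h0) h1))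

end Pool.Agent.H445
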